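import Pool.Agent.W434.BW.StmB

/-!
BW-AFC: binary projections of the restricted constraints.
-/

set_option autoImplicit false

namespace Pool.Agent.W140.BW
open Pool.Agent.W434.BW

variable {Ω : Type} {ar : Ω → ℕ}

theorem rl_rel {V St A : Type} (S : Sys V St A) {a : Alg ar A} (hE : ∀ s, Rel a a (S.E s))
    (l : List St) : Rel a a (S.Rl l) := by
  induction l with
  | nil =>
    intro ω x y h
    have : x = y := funext h
    show a ω x = a ω y
    rw [this]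
  | cons s l ih =>
    intro ω x y h
    choose c hc1 hc2 using h
    exact ⟨a ω c, hE s ω x c hc1, ih ω c y hc2⟩

section main
variable {V St A Q : Type} {u : Tm ar (Fin 3)} {C : Ctx ar V St A Q} (hC : C.Ok u)
include hC

theorem pre {π : List St} {x : V} (hπ : C.S.IsPath π C.x0 x) {c : A} (hc : c ∈ C.S.P x) :
    ∃ a ∈ C.S.P C.x0, C.S.Rl π a c := by
  obtain ⟨a, ha, h⟩ := C.S.rl_ext hC.ok _ _ _ (C.S.isPath_rv hC.ok π C.x0 x hπ) c hc
  exact ⟨a, ha, (C.S.rl_rv hC.ok π a c).1 h⟩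

variable {ι : Type} {σ : ι → V} {R : Set (ι → A)} {stp : ι → ι → St}
  (hs : ∀ i j, C.S.src (stp i j) = σ i ∧ C.S.tgt (stp i j) = σ j ∧
        ∀ x y, C.S.E (stp i j) x y ↔ ∃ r ∈ R, r i = x ∧ r j = y)
include hs

theorem mem_P {r : ι → A} (hr : r ∈ R) (t : ι) : r t ∈ C.S.P (σ t) := by
  obtain ⟨h1, -, h3⟩ := hs t t
  have := (hC.ok.dom (stp t t) (r t) (r t) ((h3 _ _).2 ⟨r, hr, rfl, rfl⟩)).1
  rwa [h1] at this

theorem lift (t : ι) {c : A} (hc : c ∈ C.S.P (σ t)) : ∃ r ∈ R, r t = c := by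
  obtain ⟨h1, -, h3⟩ := hs t t
  rw [← h1] at hc
  obtain ⟨b, hb⟩ := hC.ok.ext (stp t t) c hc
  obtain ⟨r, hr, h4, -⟩ := (h3 _ _).1 hb
  exact ⟨r, hr, h4⟩

/-- the class of a rigid path is a function of one coordinate: conclusion -/
theorem concl {t k : ι} {π : List St} (hπ : C.Rigid π (σ t)) (H : (ι → A) → Q)
    (hH : ∀ r ∈ R, ∀ a ∈ C.S.P C.x0, C.S.Rl π a (r t) → C.h0 a = H r)
    (g : A → Q) (hg : ∀ r ∈ R, H r = g (r k)) {r : ι → A} (hr : r ∈ R)
    (hk : r k ∈ C.P' (σ k)) : H r = C.B := by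
  obtain ⟨h1, h2, h3⟩ := hs t k
  have hpath : C.S.IsPath (π ++ [stp t k]) C.x0 (σ k) := by
    rw [Sys.isPath_append]
    exact ⟨σ t, hπ.1, h1, h2⟩
  have key : ∀ a ∈ C.S.P C.x0, ∀ c, C.S.Rl (π ++ [stp t k]) a c → C.h0 a = g c := by
    intro a ha c hc
    rw [Sys.rl_append] at hc
    obtain ⟨d, hd1, d', hd2, hd3⟩ := hc
    have hd3' : d' = c := hd3
    subst hd3'
    obtain ⟨r', hr', e1, e2⟩ := (h3 _ _).1 hd2
    rw [← e1] at hd1
    rw [hH r' hr' a ha hd1, hg r' hr', e2]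
  have hrig : C.Rigid (π ++ [stp t k]) (σ k) := by
    refine ⟨hpath, fun a ha a' ha' c hc hc' => ?_⟩
    rw [key a ha c hc, key a' ha' c hc']
  obtain ⟨a, ha, hak⟩ := pre hC hpath (mem_P hC hs hr k)
  have h4 := hk.2 _ hrig a ha hak
  rw [hg r hr, ← key a ha _ hak, h4]

end main

theorem afc (hM : S_afmain) (hp : S_prodAF) (hQ : S_mp) : S_afc := by
  classical
  intro Ω ar u V St A Q _ _ C hC ι _ σ R stp hR hs hAF i j r hr hri hrj
  have hrelE := hC.relE (stp i j)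
  obtain ⟨s1, s2, s3⟩ := hs i j
  set PhS : Set (A × A) := {p : A × A | C.S.E (stp i j) p.1 p.2} with hPhS
  have hPh : Sub (prodA C.a C.a) PhS := by
    intro ω x hx
    exact hrelE ω _ _ hx
  have hmemE : ∀ ξ : R, (ξ.1 i, ξ.1 j) ∈ PhS := fun ξ => (s3 _ _).2 ⟨ξ.1, ξ.2, rfl, rfl⟩
  set e : R → PhS := fun ξ => ⟨(ξ.1 i, ξ.1 j), hmemE ξ⟩ with he
  have hes : Function.Surjective e := by
    rintro ⟨⟨x, y⟩, hxy⟩
    obtain ⟨r', hr', e1, e2⟩ := (s3 _ _).1 hxy
    refine ⟨⟨r', hr'⟩, ?_⟩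
    apply Subtype.ext
    exact Prod.ext e1 e2
  have hehom : Hom (subA (piA C.a ι) R hR) (subA (prodA C.a C.a) PhS hPh) e := by
    intro ω x
    rfl
  have hafp : AF (subA (prodA C.a C.a) PhS hPh) := hp.2.1 Ω ar R PhS _ _ e hehom hes hAF
  have hmain := hM Ω ar u V St A Q C hC R PhS (subA (piA C.a ι) R hR)
    (subA (prodA C.a C.a) PhS hPh) e (e ⟨r, hr⟩) ι (fun l ξ => ξ.1 l) σ
    (nice_sub R hR (nice_pi ι hC.nice)) (nice_sub PhS hPh (nice_prod hC.nice hC.nice)) hafp hehom hes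
    (fun t ω x => rfl) (fun t ξ => mem_P hC hs ξ.2 t)
    (fun t c hc => by
      obtain ⟨r', hr', h⟩ := lift hC hs t hc
      exact ⟨⟨r', hr'⟩, h⟩)
    (fun t t' => by
      obtain ⟨h1, h2, h3⟩ := hs t t'
      refine ⟨[stp t t'], ⟨h1, h2⟩, fun c _ c' hc' => ?_⟩
      obtain ⟨d, hd, hd'⟩ := hc'
      have hd'' : d = c' := hd'
      subst hd''
      obtain ⟨r', hr', e1, e2⟩ := (h3 _ _).1 hd
      exact ⟨⟨r', hr'⟩, e1, e2⟩)
    (by
      intro t π hπ h hh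
      -- h is a surjective homomorphism
      have hpre : ∀ ξ : R, ∃ a ∈ C.S.P C.x0, C.S.Rl π a (ξ.1 t) := fun ξ =>
        pre hC hπ.1 (mem_P hC hs ξ.2 t)
      have hhom : Hom (subA (prodA C.a C.a) PhS hPh) C.q h := by
        intro ω x
        choose ξ hξ using fun k => hes (x k)
        choose a ha1 ha2 using fun k => hpre (ξ k)
        have e1 : (subA (prodA C.a C.a) PhS hPh) ω x = e ((subA (piA C.a ι) R hR) ω ξ) := by
          rw [hehom]
          congr 1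
          funext k
          exact (hξ k).symm
        have e2 : C.S.Rl π (C.a ω a) (((subA (piA C.a ι) R hR) ω ξ).1 t) :=
          rl_rel C.S hC.relE π ω a (fun k => (ξ k).1 t) ha2
        have e3 := hh _ (C.a ω a) (hC.subP C.x0 ω a ha1) e2
        rw [e1, ← e3, hC.hom ω a ha1]
        congr 1
        funext k
        rw [hh (ξ k) (a k) (ha1 k) (ha2 k), hξ k]
      have hsur : ∀ z : Q, ∃ ξ : R, h (e ξ) = z := by
        intro z
        obtain ⟨c, hc, hcz⟩ := hC.sur z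
        obtain ⟨d, hd, hcd⟩ := C.S.rl_ext hC.ok π C.x0 (σ t) hπ.1 c hc
        obtain ⟨r', hr', e1⟩ := lift hC hs t hd
        refine ⟨⟨r', hr'⟩, ?_⟩
        have : C.S.Rl π c ((⟨r', hr'⟩ : R).1 t) := by
          show C.S.Rl π c (r' t)
          rw [e1]
          exact hcd
        rw [← hh ⟨r', hr'⟩ c hc this, hcz]
      -- the two variable version
      let h' : C.S.P (σ i) → C.S.P (σ j) → Q := fun x y =>
        if hxy : C.S.E (stp i j) x.1 y.1 then h ⟨(x.1, y.1), hxy⟩ else C.B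
      have hh' : ∀ (x : C.S.P (σ i)) (y : C.S.P (σ j)) (hxy : C.S.E (stp i j) x.1 y.1),
          h' x y = h ⟨(x.1, y.1), hxy⟩ := fun x y hxy => dif_pos hxy
      have hmp := hQ Ω ar u (C.S.P (σ i)) (C.S.P (σ j)) Q (subA C.a (C.S.P (σ i)) (hC.subP (σ i)))
        (subA C.a (C.S.P (σ j)) (hC.subP (σ j))) C.q (fun x y => C.S.E (stp i j) x.1 y.1) h'
        (nice_sub _ _ hC.nice) (nice_sub _ _ hC.nice) hC.niceq (hC.afP (σ i)) (hC.afP (σ j)) hC.afq
        hC.simple hC.nl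
        (fun ω x y hxy => hrelE ω _ _ hxy)
        ⟨fun x => by
          have hx : x.1 ∈ C.S.P (C.S.src (stp i j)) := by rw [s1]; exact x.2
          obtain ⟨b, hb⟩ := hC.ok.ext (stp i j) x.1 hx
          have hb2 := (hC.ok.dom (stp i j) _ _ hb).2
          rw [s2] at hb2
          exact ⟨⟨b, hb2⟩, hb⟩,
        fun y => by
          obtain ⟨r', hr', e1⟩ := lift hC hs j y.2
          refine ⟨⟨r' i, mem_P hC hs hr' i⟩, ?_⟩
          exact (s3 _ _).2 ⟨r', hr', rfl, e1⟩⟩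
        (fun ω x y hxy => by
          have h1 : C.S.E (stp i j) (C.a ω (fun k => (x k).1)) (C.a ω (fun k => (y k).1)) :=
            hrelE ω _ _ hxy
          have h2 := hh' ((subA C.a (C.S.P (σ i)) (hC.subP (σ i))) ω x)
            ((subA C.a (C.S.P (σ j)) (hC.subP (σ j))) ω y) h1
          rw [h2]
          have h3 := hhom ω (fun k => ⟨((x k).1, (y k).1), hxy k⟩)
          have h4 : (subA (prodA C.a C.a) PhS hPh) ω (fun k => ⟨((x k).1, (y k).1), hxy k⟩) =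
              ⟨(C.a ω (fun k => (x k).1), C.a ω (fun k => (y k).1)), h1⟩ := rfl
          rw [h4] at h3
          have h5 : h ⟨(((subA C.a (C.S.P (σ i)) (hC.subP (σ i))) ω x).1,
            ((subA C.a (C.S.P (σ j)) (hC.subP (σ j))) ω y).1), h1⟩ =
              h ⟨(C.a ω (fun k => (x k).1), C.a ω (fun k => (y k).1)), h1⟩ := rfl
          rw [h5, h3]
          congr 1
          funext k
          exact (hh' (x k) (y k) (hxy k)).symm)
        (fun z => by
          obtain ⟨ξ, hξ⟩ := hsur z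
          refine ⟨⟨ξ.1 i, mem_P hC hs ξ.2 i⟩, ⟨ξ.1 j, mem_P hC hs ξ.2 j⟩, hmemE ξ, ?_⟩
          rw [hh' ⟨ξ.1 i, mem_P hC hs ξ.2 i⟩ ⟨ξ.1 j, mem_P hC hs ξ.2 j⟩ (hmemE ξ)]
          exact hξ)
      let H : (ι → A) → Q := fun r' => if hr' : r' ∈ R then h (e ⟨r', hr'⟩) else C.B
      have hH0 : ∀ r' (hr' : r' ∈ R), H r' = h (e ⟨r', hr'⟩) := fun r' hr' => dif_pos hr'
      have hH : ∀ r' ∈ R, ∀ a ∈ C.S.P C.x0, C.S.Rl π a (r' t) → C.h0 a = H r' := by
        intro r' hr' a ha hak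
        rw [hH0 r' hr']
        exact hh ⟨r', hr'⟩ a ha hak
      rw [← hH0 r hr]
      rcases hmp with ⟨g, hg⟩ | ⟨g, hg⟩
      · apply concl hC hs hπ H hH (fun c => if hc : c ∈ C.S.P (σ i) then g ⟨c, hc⟩ else C.B)
          (k := i) _ hr hri
        intro r' hr'
        have hm := mem_P hC hs hr' i
        have hE : C.S.E (stp i j) (r' i) (r' j) := hmemE ⟨r', hr'⟩
        simp only [dif_pos hm]
        rw [hH0 r' hr', ← hg ⟨r' i, hm⟩ ⟨r' j, mem_P hC hs hr' j⟩ hE, hh' _ _ hE]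
      · apply concl hC hs hπ H hH (fun c => if hc : c ∈ C.S.P (σ j) then g ⟨c, hc⟩ else C.B)
          (k := j) _ hr hrj
        intro r' hr'
        have hm := mem_P hC hs hr' j
        have hE : C.S.E (stp i j) (r' i) (r' j) := hmemE ⟨r', hr'⟩
        simp only [dif_pos hm]
        rw [hH0 r' hr', ← hg ⟨r' i, mem_P hC hs hr' i⟩ ⟨r' j, hm⟩ hE, hh' _ _ hE])
  obtain ⟨ξ, hξ1, hξ2⟩ := hmain
  have h1 := congrArg Subtype.val hξ1
  have h2 := congrArg Prod.fst h1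
  have h3 := congrArg Prod.snd h1
  exact ⟨ξ.1, ξ.2, h2, h3, hξ2⟩

end Pool.Agent.W140.BW
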